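import Mathlib

set_option autoImplicit false

namespace Pool.Agent.Results.MP_4f92f0_co.Counterexample

open Finset Matrix

abbrev R := ZMod 25
abbrev V := Fin 3 → R

/-- free submodules of rank `r` of `R^3` -/
abbrev Fr (r : ℕ) : Type := {P : Submodule R V // Nonempty (P ≃ₗ[R] (Fin r → R))}

noncomputable instance (r : ℕ) : Fintype (Fr r) :=
  have : Finite (Fr r) := Finite.of_injective (fun P : Fr r => (P.1 : Set V))
    (SetLike.coe_injective.comp Subtype.val_injective)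
  Fintype.ofFinite _

open Classical in
/-- `K` is a `(k,n)`-arc of `PHG(2,R)`: points are `Fr 1`, lines are `Fr 2` -/
def IsArc (K : Fr 1 → ℕ) (k n : ℕ) : Prop :=
  ∑ P, K P = k ∧ ∀ L : Fr 2, ∑ P with P.1 ≤ L.1, K P ≤ n

def u (x : V) : Prop := (5 : R) • x ≠ 0

lemma inv5 : ∀ a : R, 5 * a ≠ 0 → ∃ b, b * a = 1 := by decide +kernel
lemma rad5 : ∀ a : R, 5 * a = 0 → ∃ c : Fin 5, a = 5 * (c.1 : R) := by decide +kernel
lemma red5 : ∀ a : R, ∃ c : Fin 5, 5 * a = 5 * (c.1 : R) := by decide +kernel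

lemma u.ex {x : V} (h : u x) : ∃ i, 5 * x i ≠ 0 := by
  by_contra hn
  push Not at hn
  exact h (funext hn)

noncomputable def pt (x : V) (h : u x) : Fr 1 :=
  ⟨LinearMap.range (LinearMap.toSpanSingleton R V x), ⟨(LinearEquiv.ofInjective _ (by
    obtain ⟨i, hi⟩ := h.ex
    obtain ⟨b, hb⟩ := inv5 _ hi
    intro s t e
    have := congrFun e i
    simp only [LinearMap.toSpanSingleton_apply, Pi.smul_apply, smul_eq_mul] at this
    linear_combination b * this - (s - t) * hb)).symm.trans (LinearEquiv.funUnique _ _ _).symm⟩⟩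

lemma gen (P : Fr 1) : ∃ x, u x ∧ ∀ S : Submodule R V, x ∈ S → P.1 ≤ S := by
  obtain ⟨P, ⟨e⟩⟩ := P
  refine ⟨e.symm 1, fun h => ?_, fun S hS y hy => ?_⟩
  · have : (5 : R) • e.symm 1 = 0 := Subtype.ext h
    rw [← map_smul, map_eq_zero_iff _ e.symm.injective] at this
    exact absurd (congrFun this 0) (by decide)
  · have : (⟨y, hy⟩ : P) = e ⟨y, hy⟩ 0 • e.symm 1 := by
      rw [← map_smul, LinearEquiv.eq_symm_apply]
      ext i
      simp [Subsingleton.elim i 0]
    rw [show y = e ⟨y, hy⟩ 0 • (e.symm 1 : V) from congrArg Subtype.val this]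
    exact S.smul_mem _ hS

lemma line (w : V) (h : u w) : ∃ L : Fr 2, ∀ x, w ⬝ᵥ x = 0 → x ∈ L.1 := by
  obtain ⟨i, hi⟩ := h.ex
  obtain ⟨b, hb⟩ := inv5 _ hi
  let φ : (Fin 2 → R) →ₗ[R] V :=
    { toFun := fun a => i.insertNth (-b * ∑ j, w (i.succAbove j) * a j) a
      map_add' := fun a a' => by
        ext k
        refine Fin.succAboveCases i ?_ (fun j => ?_) k <;> simp
        ring
      map_smul' := fun c a => by
        ext k
        refine Fin.succAboveCases i ?_ (fun j => ?_) k <;> simp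
        ring }
  refine ⟨⟨LinearMap.range φ, ⟨(LinearEquiv.ofInjective φ fun a a' e => ?_).symm⟩⟩,
    fun x hx => ⟨fun j => x (i.succAbove j), ?_⟩⟩
  · ext j
    simpa [φ] using congrFun e (i.succAbove j)
  · ext k
    rw [dotProduct, Fin.sum_univ_succAbove _ i] at hx
    refine Fin.succAboveCases i ?_ (fun j => ?_) k
    · simp only [φ, LinearMap.coe_mk, AddHom.coe_mk, Fin.insertNth_apply_same]
      linear_combination (-b) * hx + x i * hb
    · simp [φ]

lemma normal (L : Fr 2) : ∃ w, u w ∧ ∀ x ∈ L.1, w ⬝ᵥ x = 0 := by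
  obtain ⟨L, ⟨e⟩⟩ := L
  set p : V := (e.symm ![1, 0]).1 with hp
  set q : V := (e.symm ![0, 1]).1 with hq
  have lin : ∀ s t : R, (e.symm ![s, t]).1 = s • p + t • q := fun s t => by
    have : ![s, t] = s • ![(1 : R), 0] + t • ![0, 1] := by ext i; fin_cases i <;> simp
    rw [this, map_add, map_smul, map_smul]; rfl
  have ind : ∀ s t : R, s • p + t • q = 0 → s = 0 := fun s t h => by
    have : e.symm ![s, t] = 0 := Subtype.ext ((lin s t).trans h)
    exact congrFun ((map_eq_zero_iff _ e.symm.injective).1 this) 0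
  refine ⟨![p 1 * q 2 - p 2 * q 1, p 2 * q 0 - p 0 * q 2, p 0 * q 1 - p 1 * q 0], fun h => ?_,
    fun x hx => ?_⟩
  · have h0 := congrFun h 0
    have h1 := congrFun h 1
    have h2 := congrFun h 2
    simp at h0 h1 h2
    have k : ∀ i, 5 * q i = 0 := fun i => ind _ (-(5 * p i)) (by
      ext j
      fin_cases i <;> fin_cases j <;> simp <;>
        first | ring1 | linear_combination h0 | linear_combination -h0 | linear_combination h1
              | linear_combination -h1 | linear_combination h2 | linear_combination -h2)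
    have : e.symm ![0, 5] = 0 := Subtype.ext ((lin 0 5).trans (by ext j; simp [k j]))
    exact absurd (congrFun ((map_eq_zero_iff _ e.symm.injective).1 this) 1) (by decide)
  · have : x = (e.symm ![e ⟨x, hx⟩ 0, e ⟨x, hx⟩ 1]).1 := by
      have : ![e ⟨x, hx⟩ 0, e ⟨x, hx⟩ 1] = e ⟨x, hx⟩ := by ext i; fin_cases i <;> rfl
      rw [this]; simp
    rw [this, lin]
    simp [dotProduct, Fin.sum_univ_three]
    ring

/-! the upper bound -/

def W (d : Fin 6) (t s : Fin 5) : V :=
  if d = 5 then ![5 * (t.1 : R), 5 * (s.1 : R), 1] else ![5 * (t.1 : R), 1, d.1 + 5 * (s.1 : R)]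

lemma W_u : ∀ d t s, (5 : R) • W d t s ≠ 0 := by decide +kernel

lemma W_out : ∀ a b : R, ¬ (5 * a = 0 ∧ 5 * b = 0) → ∃ d : Fin 6, ∀ t : Fin 5, ∃ s : Fin 5,
    5 * (t.1 : R) + W d 0 s 1 * a + W d 0 s 2 * b = 0 := by decide +kernel

lemma W_in : ∀ (a : R) (b c : Fin 5) (d : Fin 6), 5 * a ≠ 0 → ∃ t : Fin 5, ∀ s,
    W d t s ⬝ᵥ ![a, 5 * (b.1 : R), 5 * (c.1 : R)] = 0 := by decide +kernel

lemma core {ι : Type} [Fintype ι] [DecidableEq ι] (K : ι → ℕ) (y : ι → V) (hy : ∀ P, u (y P))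
    (h : ∀ w, u w → ∑ P with w ⬝ᵥ y P = 0, K P ≤ 27)
    (hc : ∑ P, K P ≤ 31 * ∑ P with 5 * y P 1 = 0 ∧ 5 * y P 2 = 0, K P) : ∑ P, K P ≤ 685 := by
  set C := univ.filter fun P => 5 * y P 1 = 0 ∧ 5 * y P 2 = 0 with hC
  have seg : ∀ d, ∃ t, ∑ P ∈ C, K P ≤ 5 * ∑ P ∈ C with ∀ s, W d t s ⬝ᵥ y P = 0, K P := by
    intro d
    obtain ⟨t, -, ht⟩ := exists_max_image univ
      (fun t => ∑ P ∈ C with ∀ s, W d t s ⬝ᵥ y P = 0, K P) ⟨0, mem_univ _⟩
    refine ⟨t, le_trans ?_ ((sum_le_card_nsmul _ _ _ ht).trans (by simp))⟩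
    simp only [sum_filter]
    rw [sum_comm]
    refine sum_le_sum fun P hP => ?_
    obtain ⟨h1, h2⟩ := (mem_filter.1 hP).2
    obtain ⟨b, hb⟩ := rad5 _ h1
    obtain ⟨c, hc⟩ := rad5 _ h2
    obtain ⟨t, ht⟩ := W_in (y P 0) b c d (fun h0 => hy P (by
      ext i; fin_cases i <;> assumption))
    have e : y P = ![y P 0, 5 * (b.1 : R), 5 * (c.1 : R)] := by
      ext i; fin_cases i <;> simp [hb, hc]
    rw [← e] at ht
    refine le_trans ?_ (single_le_sum (fun _ _ => Nat.zero_le _) (mem_univ t))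
    rw [if_pos ht]
  choose t ht using seg
  have main : ∑ P ∈ Cᶜ, K P + ∑ d, 5 * ∑ P ∈ C with ∀ s, W d (t d) s ⬝ᵥ y P = 0, K P
      ≤ ∑ d, ∑ s, ∑ P with W d (t d) s ⬝ᵥ y P = 0, K P := by
    simp only [sum_filter, mul_sum]
    rw [sum_comm, sum_congr rfl fun d _ => sum_comm, sum_comm (s := univ) (t := univ),
      ← sum_compl_add_sum C]
    refine add_le_add (sum_le_sum fun P hP => ?_) (sum_le_sum fun P _ => sum_le_sum fun d _ => ?_)
    · obtain ⟨d, hd⟩ := W_out (y P 1) (y P 2) (by simpa [hC] using hP)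
      obtain ⟨c, hc⟩ := red5 ((t d).1 * y P 0)
      obtain ⟨s, hs⟩ := hd c
      refine le_trans ?_ (single_le_sum (fun _ _ => Nat.zero_le _) (mem_univ d))
      refine le_trans ?_ (single_le_sum (fun _ _ => Nat.zero_le _) (mem_univ s))
      rw [if_pos]
      unfold W at hs ⊢
      split_ifs at hs ⊢ <;> simp [dotProduct, Fin.sum_univ_three] at hs ⊢ <;>
        linear_combination hs + hc
    · split_ifs with e
      · simp [e]
      · simp
  have up : ∑ d, ∑ s, ∑ P with W d (t d) s ⬝ᵥ y P = 0, K P ≤ 810 :=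
    (sum_le_card_nsmul _ _ (5 * 27) fun d _ =>
      (sum_le_card_nsmul _ _ 27 fun s _ => h _ (W_u _ _ _)).trans (by simp)).trans (by simp)
  rw [← sum_compl_add_sum C] at hc ⊢
  rw [Fin.sum_univ_six] at main
  have := ht 0; have := ht 1; have := ht 2; have := ht 3; have := ht 4; have := ht 5
  omega

def M (j : Fin 31) : Matrix (Fin 3) (Fin 3) R :=
  if j.1 < 25 then !![1, 0, 0; -((j.1 / 5 : ℕ) : R), 1, 0; -((j.1 % 5 : ℕ) : R), 0, 1]
  else if j.1 < 30 then !![0, 1, 0; 1, 0, 0; 0, -((j.1 % 5 : ℕ) : R), 1]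
  else !![0, 0, 1; 1, 0, 0; 0, 1, 0]

lemma M_det : ∀ j, (M j).adjugate * M j = 1 ∨ (M j).adjugate * M j = -1 := by
  simp only [adjugate_mul, det_fin_three]
  decide +kernel

lemma M_u (j : Fin 31) (x : V) (h : u x) : u (M j *ᵥ x) ∧ u (x ᵥ* M j) := by
  have hd : IsUnit (M j) := by
    rcases M_det j with e | e
    · exact IsUnit.of_mul_eq_one_right _ e
    · exact IsUnit.of_mul_eq_one_right (-(M j).adjugate) (by rw [neg_mul, e, neg_neg])
  refine ⟨fun e => h (mulVec_injective_of_isUnit hd ?_), fun e => h (vecMul_injective_of_isUnit hd ?_)⟩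
  · rw [mulVec_smul, e, mulVec_zero]
  · simp only [smul_vecMul, zero_vecMul]; exact e

lemma quot : ∀ a b : R, 5 * a ≠ 0 → ∃ c : Fin 5, 5 * (b - (c.1 : R) * a) = 0 := by decide +kernel

lemma cover (x : V) : ∃ j, 5 * (M j *ᵥ x) 1 = 0 ∧ 5 * (M j *ᵥ x) 2 = 0 := by
  by_cases h0 : 5 * x 0 = 0
  · by_cases h1 : 5 * x 1 = 0
    · exact ⟨30, by simpa [M, mulVec, dotProduct, Fin.sum_univ_three] using ⟨h0, h1⟩⟩
    · obtain ⟨c, hc⟩ := quot _ (x 2) h1
      refine ⟨⟨25 + c, by omega⟩, ?_⟩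
      have : (25 + c.1) % 5 = c.1 := by omega
      rw [M, if_neg (by simp), if_pos (by simp; omega)]
      simp only [this]
      simp [mulVec, dotProduct, Fin.sum_univ_three]
      exact ⟨h0, by linear_combination hc⟩
  · obtain ⟨b, hb⟩ := quot _ (x 1) h0
    obtain ⟨c, hc⟩ := quot _ (x 2) h0
    refine ⟨⟨5 * b + c, by omega⟩, ?_⟩
    have e1 : (5 * b.1 + c.1) % 5 = c.1 := by omega
    have e2 : (5 * b.1 + c.1) / 5 = b.1 := by omega
    rw [M, if_pos (by simp; omega)]
    simp only [e1, e2]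
    simp [mulVec, dotProduct, Fin.sum_univ_three]
    exact ⟨by linear_combination hb, by linear_combination hc⟩

lemma upper (K : Fr 1 → ℕ) (k : ℕ) (h : IsArc K k 27) : k ≤ 685 := by
  classical
  choose g g1 g2 using gen
  obtain ⟨j, -, hj⟩ := exists_max_image univ
    (fun j => ∑ P with 5 * (M j *ᵥ g P) 1 = 0 ∧ 5 * (M j *ᵥ g P) 2 = 0, K P) ⟨0, mem_univ _⟩
  rw [← h.1]
  refine core K (fun P => M j *ᵥ g P) (fun P => (M_u j _ (g1 P)).1) (fun w hw => ?_) ?_
  · obtain ⟨L, hL⟩ := line _ (M_u j w hw).2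
    refine le_trans (sum_le_sum_of_subset fun P hP => ?_) (h.2 L)
    simp only [mem_filter, mem_univ, true_and] at hP ⊢
    exact g2 P _ (hL _ (by rw [← dotProduct_mulVec]; exact hP))
  · refine le_trans ?_ ((sum_le_card_nsmul _ _ _ hj).trans (by simp))
    simp only [sum_filter]
    rw [sum_comm]
    refine sum_le_sum fun P _ => ?_
    obtain ⟨i, hi⟩ := cover (g P)
    refine le_trans ?_ (single_le_sum (fun _ _ => Nat.zero_le _) (mem_univ i))
    rw [if_pos hi]

/-! the example -/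

abbrev J := (R × R) ⊕ (Fin 5 × R) ⊕ (Fin 5 × Fin 5)

def rep : J → V
  | .inl p => ![1, p.1, p.2]
  | .inr (.inl p) => ![5 * (p.1.1 : R), 1, p.2]
  | .inr (.inr p) => ![5 * (p.1.1 : R), 5 * (p.2.1 : R), 1]

def wt : J → ℕ
  | .inl _ => 1
  | .inr (.inl p) => if p.1.1 = p.2.val ^ 2 % 5 then 2 else 0
  | .inr (.inr p) => if p.1.1 < 2 then 1 else 0

lemma rep_u (i : J) : u (rep i) := by
  rcases i with p | p | p
  · exact fun e => absurd (congrFun e 0) (by simp [rep]; decide)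
  · exact fun e => absurd (congrFun e 1) (by simp [rep]; decide)
  · exact fun e => absurd (congrFun e 2) (by simp [rep]; decide)

def inf (z a b : R) : ℕ :=
  (∑ p : Fin 5 × R, if (p.1.1 : R) * z + a + b * p.2 = 0 then wt (.inr (.inl p)) else 0) +
  ∑ p : Fin 5 × Fin 5, if (p.1.1 : R) * z + a * (5 * (p.2.1 : R)) + b = 0 then wt (.inr (.inr p))
    else 0

lemma inf1 : ∀ (z : Fin 5) (b : R), inf (5 * (z.1 : R)) 1 b ≤ 2 := by decide +kernel
lemma inf2 : ∀ z a : Fin 5, inf (5 * (z.1 : R)) (5 * (a.1 : R)) 1 ≤ 2 := by decide +kernel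
lemma inf3 : ∀ a b : Fin 5, inf 5 (5 * (a.1 : R)) (5 * (b.1 : R)) ≤ 27 := by decide +kernel

lemma split (w : V) : ∑ i with w ⬝ᵥ rep i = 0, wt i =
    (univ.filter fun p : R × R => w 0 + w 1 * p.1 + w 2 * p.2 = 0).card
      + inf (5 * w 0) (w 1) (w 2) := by
  rw [sum_filter, Fintype.sum_sum_type, Fintype.sum_sum_type, card_filter, inf]
  refine congrArg₂ (· + ·) ?_ (congrArg₂ (· + ·) ?_ ?_)
  · refine sum_congr rfl fun p _ => if_congr ?_ rfl rfl
    simp [rep, dotProduct, Fin.sum_univ_three]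
  · refine sum_congr rfl fun p _ => if_congr ?_ rfl rfl
    simp only [rep, dotProduct, Fin.sum_univ_three, Matrix.cons_val]
    constructor <;> intro e <;> linear_combination e
  · refine sum_congr rfl fun p _ => if_congr ?_ rfl rfl
    simp only [rep, dotProduct, Fin.sum_univ_three, Matrix.cons_val]
    constructor <;> intro e <;> linear_combination e

lemma bound (w : V) (h : u w) : ∑ i with w ⬝ᵥ rep i = 0, wt i ≤ 27 := by
  have sc : ∀ b : R, ∑ i with w ⬝ᵥ rep i = 0, wt i ≤ ∑ i with (b • w) ⬝ᵥ rep i = 0, wt i :=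
    fun b => sum_le_sum_of_subset fun i hi => by
      simp only [mem_filter, mem_univ, true_and] at hi ⊢
      rw [smul_dotProduct, hi, smul_zero]
  by_cases h1 : 5 * w 1 = 0
  · by_cases h2 : 5 * w 2 = 0
    · obtain ⟨b, hb⟩ := inv5 (w 0) fun h0 => h (by ext i; fin_cases i <;> assumption)
      refine (sc b).trans ?_
      obtain ⟨s, hs⟩ := rad5 (b * w 1) (by linear_combination b * h1)
      obtain ⟨t, ht⟩ := rad5 (b * w 2) (by linear_combination b * h2)
      rw [split]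
      simp only [Pi.smul_apply, smul_eq_mul, hb, hs, ht, mul_one]
      rw [filter_false_of_mem, card_empty, zero_add]
      · exact inf3 s t
      · intro p _ e
        have e25 : (25 : R) = 0 := by decide
        exact (by decide : (5 : R) ≠ 0)
          (by linear_combination 5 * e - ((s.1 : R) * p.1 + (t.1 : R) * p.2) * e25)
    · obtain ⟨b, hb⟩ := inv5 _ h2
      refine (sc b).trans ?_
      obtain ⟨s, hs⟩ := rad5 (b * w 1) (by linear_combination b * h1)
      obtain ⟨z, hz⟩ := red5 (b * w 0)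
      rw [split]
      simp only [Pi.smul_apply, smul_eq_mul, hb, hs, hz]
      refine add_le_add (show _ ≤ 25 from ?_) (inf2 z s)
      refine (card_le_card_of_injOn (t := univ) Prod.fst (by simp) fun p hp q hq e => ?_).trans
        (by simp)
      simp only [coe_filter, mem_univ, true_and, Set.mem_ofPred_eq] at hp hq
      exact Prod.ext e (by rw [e] at hp; linear_combination hp - hq)
  · obtain ⟨b, hb⟩ := inv5 _ h1
    refine (sc b).trans ?_
    obtain ⟨z, hz⟩ := red5 (b * w 0)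
    rw [split]
    simp only [Pi.smul_apply, smul_eq_mul, hb, hz]
    refine add_le_add (show _ ≤ 25 from ?_) (inf1 z _)
    refine (card_le_card_of_injOn (t := univ) Prod.snd (by simp) fun p hp q hq e => ?_).trans
      (by simp)
    simp only [coe_filter, mem_univ, true_and, Set.mem_ofPred_eq] at hp hq
    exact Prod.ext (by rw [e] at hp; linear_combination hp - hq) e

theorem result : ∃ K : Fr 1 → ℕ, IsArc K 685 27 ∧
    (∀ (K' : Fr 1 → ℕ) (k : ℕ), IsArc K' k 27 → k ≤ 685) ∧ ∃ P, 2 ≤ K P := by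
  classical
  refine ⟨fun P => ∑ i with pt _ (rep_u i) = P, wt i, ⟨?_, fun L => ?_⟩, upper,
    pt _ (rep_u (.inr (.inl (0, 0)))), ?_⟩
  · beta_reduce
    rw [sum_fiberwise]
    decide +kernel
  · obtain ⟨w, hw, h⟩ := normal L
    beta_reduce
    rw [sum_fiberwise_eq_sum_filter]
    refine le_trans (sum_le_sum_of_subset fun i hi => ?_) (bound w hw)
    simp only [mem_filter, mem_univ, true_and] at hi ⊢
    exact h _ (hi ⟨1, by simp⟩)
  · exact single_le_sum (f := wt) (fun _ _ => Nat.zero_le _)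
      (a := .inr (.inl (0, 0))) (by simp)

end Pool.Agent.Results.MP_4f92f0_co.Counterexample
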